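import Mathlib

set_option autoImplicit false

namespace Pool.Agent.Results.MP_126cd2_nt.LogAsymptotics

/-- `m` is `3`-smooth: `m = 2 ^ i * 3 ^ j`. -/
def IsSmooth (m : ℕ) : Prop := ∃ i j : ℕ, m = 2 ^ i * 3 ^ j

/-- `N` is a sum of at most `n` numbers of the form `2 ^ i * 3 ^ j`, repetitions allowed. -/
def Rep (n N : ℕ) : Prop :=
  ∃ s : Multiset ℕ, s.card ≤ n ∧ (∀ m ∈ s, IsSmooth m) ∧ s.sum = N

/-- `h n` is the least positive integer that is not a sum of at most `n` numbers `2 ^ i * 3 ^ j`. -/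
noncomputable def h (n : ℕ) : ℕ := sInf {N : ℕ | 0 < N ∧ ¬ Rep n N}

theorem rep_zero (n : ℕ) : Rep n 0 := ⟨0, by simp, by simp, by simp⟩

theorem Rep.mono {n n' N : ℕ} (H : Rep n N) (hn : n ≤ n') : Rep n' N := by
  obtain ⟨s, h1, h2, h3⟩ := H
  exact ⟨s, h1.trans hn, h2, h3⟩

theorem Rep.two_pow_mul {n N : ℕ} (H : Rep n N) (a : ℕ) : Rep n (2 ^ a * N) := by
  obtain ⟨s, h1, h2, h3⟩ := H
  refine ⟨s.map (fun m => 2 ^ a * m), by simpa using h1, ?_, ?_⟩
  · intro m hm
    obtain ⟨k, hk, rfl⟩ := Multiset.mem_map.1 hm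
    obtain ⟨i, j, rfl⟩ := h2 k hk
    exact ⟨a + i, j, by rw [pow_add]; ring⟩
  · rw [Multiset.sum_map_mul_left, Multiset.map_id', h3]

theorem Rep.add {n N m : ℕ} (H : Rep n N) (hm : IsSmooth m) : Rep (n + 1) (m + N) := by
  obtain ⟨s, h1, h2, h3⟩ := H
  refine ⟨m ::ₘ s, by simpa using h1, ?_, by simp [h3]⟩
  intro k hk
  rcases Multiset.mem_cons.1 hk with rfl | hk
  · exact hm
  · exact h2 k hk

theorem smooth_three_pow (j : ℕ) : IsSmooth (3 ^ j) := ⟨0, j, by simp⟩

/-! ### Powers of three modulo powers of two -/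

theorem three_pow_two_pow (c : ℕ) : ∃ k : ℕ, 3 ^ (2 ^ (c + 1)) = 1 + 2 ^ (c + 3) * (2 * k + 1) := by
  induction c with
  | zero => exact ⟨0, by norm_num⟩
  | succ c ih =>
    obtain ⟨k, hk⟩ := ih
    refine ⟨k + 2 ^ (c + 1) * (2 * k + 1) ^ 2, ?_⟩
    rw [show 2 ^ (c + 1 + 1) = 2 ^ (c + 1) * 2 by rw [pow_succ], pow_mul, hk]
    have e1 : (2 : ℕ) ^ (c + 3) = 4 * 2 ^ (c + 1) := by rw [pow_add, pow_add]; ring
    have e2 : (2 : ℕ) ^ (c + 1 + 3) = 8 * 2 ^ (c + 1) := by rw [pow_add (2 : ℕ) (c + 1) 3]; ring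
    rw [e1, e2]
    ring

theorem exists_pow (c : ℕ) (r : ℤ) (hr : r % 8 = 1) :
    ∃ j : ℕ, j < 2 ^ (c + 1) ∧ (2 : ℤ) ^ (c + 3) ∣ 3 ^ j - r := by
  induction c with
  | zero =>
    refine ⟨0, by norm_num, ?_⟩
    norm_num
    omega
  | succ c ih =>
    obtain ⟨j, hj, d, hd⟩ := ih
    rcases Int.even_or_odd d with ⟨e, he⟩ | ⟨e, he⟩
    · refine ⟨j, hj.trans (Nat.pow_lt_pow_right (by norm_num) (by omega)), e, ?_⟩
      rw [hd, he, show c + 1 + 3 = c + 3 + 1 by ring, pow_succ]
      ring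
    · obtain ⟨k, hk⟩ := three_pow_two_pow c
      have hodd : ∃ u : ℤ, (3 : ℤ) ^ j = 2 * u + 1 := by
        have : Odd ((3 : ℤ) ^ j) := Odd.pow (by decide)
        exact this
      obtain ⟨u, hu⟩ := hodd
      have hk' : (3 : ℤ) ^ (2 ^ (c + 1)) = 1 + 2 ^ (c + 3) * (2 * k + 1) := by exact_mod_cast hk
      refine ⟨j + 2 ^ (c + 1), ?_, e + 1 + u * (2 * k + 1) + k, ?_⟩
      · rw [pow_succ 2 (c + 1)]; omega
      · have e3 : (3 : ℤ) ^ (j + 2 ^ (c + 1)) - r =
            (3 ^ j - r) + 2 ^ (c + 3) * ((2 * k + 1) * 3 ^ j) := by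
          rw [pow_add, hk']; ring
        rw [e3, hd, he, hu, show c + 1 + 3 = c + 3 + 1 by ring, pow_succ]
        ring

/-- one step of the algorithm -/
theorem step {N a : ℕ} (hN : N % 8 = 1) (ha : 3 ≤ a) (hle : 3 ^ (2 ^ (a + 1)) ≤ N) :
    ∃ j t : ℕ, N = 3 ^ j + 2 ^ a * (8 * t + 1) := by
  obtain ⟨b, rfl⟩ : ∃ b, a = b + 3 := ⟨a - 3, by omega⟩
  have h8 : ((N : ℤ) - 2 ^ (b + 3)) % 8 = 1 := by
    rw [pow_add]
    have : (N : ℤ) % 8 = 1 := by exact_mod_cast hN
    norm_num
    omega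
  obtain ⟨j, hj, d, hd⟩ := exists_pow (b + 3) _ h8
  have h1 : (3 : ℕ) ^ j < 3 ^ (2 ^ (b + 3 + 1)) := Nat.pow_lt_pow_right (by norm_num) hj
  have h2 : ((3 : ℕ) ^ j : ℤ) < N := by exact_mod_cast lt_of_lt_of_le h1 hle
  push_cast at h2
  have h3 : (N : ℤ) - 3 ^ j = 2 ^ (b + 3) * (1 - 8 * d) := by
    have : (2 : ℤ) ^ (b + 3 + 3) = 2 ^ (b + 3) * 8 := by rw [pow_add (2 : ℤ) (b + 3) 3]; norm_num
    rw [this] at hd
    linarith
  have h4 : 0 < (2 : ℤ) ^ (b + 3) * (1 - 8 * d) := by rw [← h3]; linarith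
  have h5 : 0 < 1 - 8 * d := pos_of_mul_pos_right h4 (by positivity)
  refine ⟨j, (-d).toNat, ?_⟩
  have h6 : (((-d).toNat : ℕ) : ℤ) = -d := Int.toNat_of_nonneg (by omega)
  zify
  rw [h6]
  linarith

/-- the threshold of level `a` -/
def W (a : ℕ) : ℕ := 3 ^ (2 ^ (a + 1))

theorem descent {a : ℕ} (ha : 3 ≤ a) (m : ℕ) : ∀ N : ℕ, N % 8 = 1 → N < 2 ^ (a * m) * W a →
    ∃ N1 : ℕ, N1 % 8 = 1 ∧ N1 < W a ∧ ∀ n, Rep n N1 → Rep (n + m) N := by
  induction m with
  | zero =>
    intro N hN hlt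
    exact ⟨N, hN, by simpa using hlt, fun n hn => hn⟩
  | succ m ih =>
    intro N hN hlt
    rcases Nat.lt_or_ge N (W a) with hW | hW
    · exact ⟨N, hN, hW, fun n hn => hn.mono (by omega)⟩
    · obtain ⟨j, t, hjt⟩ := step hN ha hW
      have h1 : 8 * t + 1 < 2 ^ (a * m) * W a := by
        have h2 : 2 ^ a * (8 * t + 1) < 2 ^ a * (2 ^ (a * m) * W a) := by
          calc 2 ^ a * (8 * t + 1) ≤ N := by rw [hjt]; exact Nat.le_add_left _ _
            _ < 2 ^ (a * (m + 1)) * W a := hlt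
            _ = 2 ^ a * (2 ^ (a * m) * W a) := by rw [mul_add, mul_one, pow_add]; ring
        exact lt_of_mul_lt_mul_left h2 (Nat.zero_le _)
      obtain ⟨N1, h3, h4, h5⟩ := ih (8 * t + 1) (by omega) h1
      refine ⟨N1, h3, h4, fun n hn => ?_⟩
      have h6 := ((h5 n hn).two_pow_mul a).add (smooth_three_pow j)
      rw [← hjt] at h6
      exact h6

/-! ### The lower bound -/

/-- all `N ≡ 1 mod 8` below `X` are sums of at most `n` terms -/
def G (n X : ℕ) : Prop := ∀ N : ℕ, N % 8 = 1 → N < X → Rep n N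

theorem Rep.ones (N : ℕ) : Rep N N := by
  refine ⟨Multiset.replicate N 1, by simp, ?_, by simp⟩
  intro m hm
  rw [Multiset.eq_of_mem_replicate hm]
  exact ⟨0, 0, by simp⟩

theorem G.descent {a : ℕ} (ha : 3 ≤ a) {n : ℕ} (H : G n (W a)) (m : ℕ) :
    G (n + m) (2 ^ (a * m) * W a) := by
  intro N hN hlt
  obtain ⟨N1, h1, h2, h3⟩ := LogAsymptotics.descent ha m N hN hlt
  exact h3 n (H N1 h1 h2)

theorem W_pos (a : ℕ) : 0 < W a := by unfold W; positivity

theorem log_W (a : ℕ) : Real.log (W a : ℝ) = 2 ^ (a + 1) * Real.log 3 := by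
  unfold W
  push_cast
  rw [Real.log_pow]
  push_cast
  ring

theorem W_succ (a : ℕ) : W (a + 1) = W a * W a := by
  unfold W
  rw [← pow_add, pow_succ 2 (a + 1)]
  congr 1
  ring

theorem pow_ge_of_log {a m : ℕ} {y : ℝ} (h : y ≤ (a : ℝ) * m * Real.log 2) :
    Real.exp y ≤ (2 ^ (a * m) : ℕ) := by
  have h1 : Real.log ((2 ^ (a * m) : ℕ) : ℝ) = (a : ℝ) * m * Real.log 2 := by
    push_cast
    rw [Real.log_pow]
    push_cast
    ring
  have h2 : (0 : ℝ) < ((2 ^ (a * m) : ℕ) : ℝ) := by positivity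
  rw [← Real.exp_log h2, h1]
  exact Real.exp_le_exp.2 h

theorem level (a : ℕ) (ha : 3 ≤ a) : ∃ b : ℕ, G b (W a) ∧
    (b : ℝ) ≤ 2 ^ (a + 1) * Real.log 3 / (a * Real.log 2) * (1 + 12 / a) + a + W 3 := by
  have l2 : 0 < Real.log 2 := Real.log_pos (by norm_num)
  have l3 : 0 < Real.log 3 := Real.log_pos (by norm_num)
  induction a, ha using Nat.le_induction with
  | base =>
    refine ⟨W 3, fun N _ hlt => (Rep.ones N).mono hlt.le, ?_⟩
    have : (0 : ℝ) ≤ 2 ^ (3 + 1) * Real.log 3 / ((3 : ℕ) * Real.log 2) * (1 + 12 / (3 : ℕ)) := by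
      positivity
    push_cast at this ⊢
    linarith
  | succ a ha ih =>
    obtain ⟨b, hb, hle⟩ := ih
    have ha0 : (0 : ℝ) < a := by
      have : (3 : ℝ) ≤ a := by exact_mod_cast ha
      linarith
    set L : ℝ := 2 ^ (a + 1) * Real.log 3 / (a * Real.log 2) with hL
    have hLpos : 0 < L := by positivity
    set m := ⌈L⌉₊ with hm
    have hm1 : L ≤ m := Nat.le_ceil _
    have hm2 : (m : ℝ) < L + 1 := Nat.ceil_lt_add_one hLpos.le
    refine ⟨b + m, ?_, ?_⟩
    · intro N hN hlt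
      refine hb.descent ha m N hN (hlt.trans_le ?_)
      rw [W_succ]
      refine Nat.mul_le_mul_right _ ?_
      have h1 : Real.exp (Real.log (W a : ℝ)) ≤ (2 ^ (a * m) : ℕ) := by
        apply pow_ge_of_log
        rw [log_W]
        have h2 : 2 ^ (a + 1) * Real.log 3 = L * (a * Real.log 2) := by
          rw [hL]; field_simp
        rw [h2]
        have : 0 < a * Real.log 2 := by positivity
        nlinarith
      rw [Real.exp_log (by exact_mod_cast W_pos a)] at h1
      exact_mod_cast h1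
    · have key : L + L * (1 + 12 / a) ≤
          2 ^ (a + 1 + 1) * Real.log 3 / (((a + 1 : ℕ) : ℝ) * Real.log 2) * (1 + 12 / ((a + 1 : ℕ) : ℝ)) := by
        have h3 : 2 ^ (a + 1 + 1) * Real.log 3 / (((a + 1 : ℕ) : ℝ) * Real.log 2) =
            L * (2 * a / (a + 1)) := by
          rw [hL]; push_cast; field_simp; ring
        rw [h3]
        have h4 : L * (2 * a / (a + 1)) * (1 + 12 / ((a + 1 : ℕ) : ℝ)) =
            L * (2 * a / (a + 1) * (1 + 12 / (a + 1))) := by push_cast; ring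
        rw [h4]
        have h5 : 1 + (1 + 12 / (a : ℝ)) ≤ 2 * a / (a + 1) * (1 + 12 / (a + 1)) := by
          have h6 : 2 * (a : ℝ) / (a + 1) * (1 + 12 / (a + 1)) - (1 + (1 + 12 / (a : ℝ))) =
              (10 * a ^ 2 - 26 * a - 12) / (a * (a + 1) ^ 2) := by
            field_simp; ring
          have h7 : 0 ≤ (10 * (a : ℝ) ^ 2 - 26 * a - 12) / (a * (a + 1) ^ 2) := by
            apply div_nonneg _ (by positivity)
            have : (3 : ℝ) ≤ a := by exact_mod_cast ha
            nlinarith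
          linarith
        calc L + L * (1 + 12 / a) = L * (1 + (1 + 12 / (a : ℝ))) := by ring
          _ ≤ _ := mul_le_mul_of_nonneg_left h5 hLpos.le
      push_cast at key hle ⊢
      linarith

/-- every `N ≡ 1 mod 8` with `N ≤ exp Y` -/
theorem level_real {a : ℕ} (ha : 3 ≤ a) {Y : ℝ} (hY : 2 ^ (a + 1) * Real.log 3 ≤ Y) :
    ∃ b : ℕ, (∀ N : ℕ, N % 8 = 1 → (N : ℝ) ≤ Real.exp Y → Rep b N) ∧
    (b : ℝ) ≤ Y / (a * Real.log 2) * (1 + 12 / a) + a + 1 + W 3 := by
  have l2 : 0 < Real.log 2 := Real.log_pos (by norm_num)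
  have l3 : 0 < Real.log 3 := Real.log_pos (by norm_num)
  obtain ⟨b, hb, hle⟩ := level a ha
  have ha0 : (0 : ℝ) < a := by
    have : (3 : ℝ) ≤ a := by exact_mod_cast ha
    linarith
  set D : ℝ := (Y - 2 ^ (a + 1) * Real.log 3) / (a * Real.log 2) with hD
  have hD0 : 0 ≤ D := div_nonneg (by linarith) (by positivity)
  set m := ⌊D⌋₊ + 1 with hm
  have hm1 : D < m := by rw [hm]; push_cast; exact Nat.lt_floor_add_one D
  have hm2 : (m : ℝ) ≤ D + 1 := by
    rw [hm]; push_cast; linarith [Nat.floor_le hD0]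
  refine ⟨b + m, ?_, ?_⟩
  · intro N hN hle'
    refine hb.descent ha m N hN ?_
    have h1 : Real.exp Y < ((2 ^ (a * m) : ℕ) : ℝ) * (W a : ℝ) := by
      have h2 : Real.exp (D * (a * Real.log 2)) < Real.exp (m * (a * Real.log 2)) :=
        Real.exp_lt_exp.2 (mul_lt_mul_of_pos_right hm1 (by positivity))
      have h3 : Real.exp (m * (a * Real.log 2)) ≤ (2 ^ (a * m) : ℕ) :=
        pow_ge_of_log (le_of_eq (by ring))
      have h4 : Real.exp Y = Real.exp (D * (a * Real.log 2)) * (W a : ℝ) := by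
        have h5 : D * (a * Real.log 2) = Y - 2 ^ (a + 1) * Real.log 3 := by
          rw [hD]; field_simp
        have hW : (0 : ℝ) < W a := by exact_mod_cast W_pos a
        calc Real.exp Y = Real.exp (D * (a * Real.log 2) + Real.log (W a : ℝ)) := by
              rw [h5, log_W]; congr 1; ring
          _ = _ := by rw [Real.exp_add, Real.exp_log hW]
      rw [h4]
      exact mul_lt_mul_of_pos_right (h2.trans_le h3) (by exact_mod_cast W_pos a)
    have h2 : (N : ℝ) < ((2 ^ (a * m) * W a : ℕ) : ℝ) := by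
      push_cast at h1 ⊢
      exact lt_of_le_of_lt hle' h1
    exact_mod_cast h2
  · have h12 : 2 ^ (a + 1) * Real.log 3 / (a * Real.log 2) * (12 / a) + D * (12 / a) =
        Y / (a * Real.log 2) * (12 / a) := by
      rw [hD]; ring
    have h13 : 2 ^ (a + 1) * Real.log 3 / (a * Real.log 2) + D = Y / (a * Real.log 2) := by
      rw [hD]; ring
    have h14 : 0 ≤ D * (12 / a) := by positivity
    push_cast
    rw [mul_add, mul_one] at hle ⊢
    linarith

/-- one extra term reduces an odd number to a number whose odd part is `1` modulo `8` -/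
theorem reduce_odd {u : ℕ} (hu : u % 2 = 1) (hbig : 2187 < u) :
    u % 8 = 1 ∨ ∃ j c t : ℕ, u = 3 ^ j + 2 ^ c * (8 * t + 1) := by
  have h8 : u % 8 = 1 ∨ u % 16 = 3 ∨ u % 16 = 11 ∨ u % 16 = 5 ∨ u % 16 = 13 ∨
      u % 32 = 7 ∨ u % 32 = 15 ∨ u % 32 = 23 ∨ u % 32 = 31 := by omega
  rcases h8 with h | h | h | h | h | h | h | h | h
  · exact Or.inl h
  · exact Or.inr ⟨0, 1, (u - 3) / 16, by norm_num; omega⟩
  · exact Or.inr ⟨2, 1, (u - 11) / 16, by norm_num; omega⟩
  · exact Or.inr ⟨1, 1, (u - 5) / 16, by norm_num; omega⟩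
  · exact Or.inr ⟨3, 1, (u - 29) / 16, by norm_num; omega⟩
  · exact Or.inr ⟨1, 2, (u - 7) / 32, by norm_num; omega⟩
  · exact Or.inr ⟨7, 2, (u - 2191) / 32, by norm_num; omega⟩
  · exact Or.inr ⟨5, 2, (u - 247) / 32, by norm_num; omega⟩
  · exact Or.inr ⟨3, 2, (u - 31) / 32, by norm_num; omega⟩

theorem rep_all {b : ℕ} {Y : ℝ} (H : ∀ N : ℕ, N % 8 = 1 → (N : ℝ) ≤ Real.exp Y → Rep b N)
    {N : ℕ} (hN : (N : ℝ) ≤ Real.exp Y) : Rep (b + 2188) N := by
  rcases Nat.eq_zero_or_pos N with rfl | hpos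
  · exact rep_zero _
  obtain ⟨k, u, hu, rfl⟩ := Nat.exists_eq_two_pow_mul_odd hpos.ne'
  have hu2 : u % 2 = 1 := Nat.odd_iff.1 hu
  apply Rep.two_pow_mul
  have hule : (u : ℝ) ≤ Real.exp Y := by
    refine le_trans ?_ hN
    have : u ≤ 2 ^ k * u := Nat.le_mul_of_pos_left _ (by positivity)
    exact_mod_cast this
  rcases Nat.lt_or_ge 2187 u with hbig | hsmall
  · rcases reduce_odd hu2 hbig with h1 | ⟨j, c, t, hjct⟩
    · exact (H u h1 hule).mono (by omega)
    · have h2 : 8 * t + 1 ≤ u := by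
        calc 8 * t + 1 ≤ 2 ^ c * (8 * t + 1) := Nat.le_mul_of_pos_left _ (by positivity)
          _ ≤ u := by rw [hjct]; exact Nat.le_add_left _ _
      have h3 : Rep b (8 * t + 1) := by
        refine H _ (by omega) (le_trans ?_ hule)
        exact_mod_cast h2
      have h4 := (h3.two_pow_mul c).add (smooth_three_pow j)
      rw [← hjct] at h4
      exact h4.mono (by omega)
  · exact (Rep.ones u).mono (by omega)

/-- effective form of the construction -/
theorem rep_bound {a : ℕ} (ha : 3 ≤ a) {Y : ℝ} (hY : 2 ^ (a + 1) * Real.log 3 ≤ Y) {n : ℕ}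
    (hn : Y / (a * Real.log 2) * (1 + 12 / a) + a + 2189 + W 3 ≤ n) {N : ℕ}
    (hN : (N : ℝ) ≤ Real.exp Y) : Rep n N := by
  obtain ⟨b, hb, hle⟩ := level_real ha hY
  refine (rep_all hb hN).mono ?_
  have : ((b + 2188 : ℕ) : ℝ) ≤ n := by push_cast; linarith
  exact_mod_cast this

theorem log_three_lt : Real.log 3 < 1.4 := by
  have h1 : Real.log 3 < Real.log 4 := Real.log_lt_log (by norm_num) (by norm_num)
  have h2 : Real.log 4 = 2 * Real.log 2 := by
    rw [show (4 : ℝ) = 2 ^ 2 by norm_num, Real.log_pow]; push_cast; ring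
  have := Real.log_two_lt_d9
  linarith

theorem lower_aux {n : ℕ} (h1 : 13 ≤ Real.log (Real.log n)) (h2 : 2189 + (W 3 : ℝ) ≤ Real.log n)
    {N : ℕ} (hN : (N : ℝ) ≤ Real.exp (n * Real.log n + n * Real.log (Real.log n) - 12 * n)) :
    Rep n N := by
  have l2 : 0 < Real.log 2 := Real.log_pos (by norm_num)
  have l2' := Real.log_two_lt_d9
  have l2'' := Real.log_two_gt_d9
  have l3 : 0 < Real.log 3 := Real.log_pos (by norm_num)
  set x := Real.log n with hx
  have hWpos : (0 : ℝ) < W 3 := by exact_mod_cast W_pos 3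
  have hx0 : 2189 < x := by linarith
  have hn0 : (0 : ℝ) < n := by
    rcases Nat.eq_zero_or_pos n with rfl | h
    · simp at hx; linarith
    · exact_mod_cast h
  have hexp : (n : ℝ) = Real.exp x := (Real.exp_log hn0).symm
  have hlx : Real.log x ≤ x := (Real.log_le_sub_one_of_pos (by linarith)).trans (by linarith)
  set Y : ℝ := n * x + n * Real.log x - 12 * n with hY
  have hYeq : Y = n * (x + Real.log x - 12) := by rw [hY]; ring
  have hYlow : n * x ≤ Y := by rw [hYeq]; exact mul_le_mul_of_nonneg_left (by linarith) hn0.le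
  have hYup : Y ≤ n * (2 * x) := by rw [hYeq]; exact mul_le_mul_of_nonneg_left (by linarith) hn0.le
  have hYpos : 0 < Y := lt_of_lt_of_le (by positivity) hYlow
  have hlogY1 : x + Real.log x ≤ Real.log Y := by
    have := Real.log_le_log (by positivity) hYlow
    rwa [Real.log_mul hn0.ne' (by linarith), ← hx] at this
  have hlogY2 : Real.log Y ≤ 3 * x := by
    have h3 := Real.log_le_log hYpos hYup
    rw [Real.log_mul hn0.ne' (by linarith), ← hx] at h3
    have h4 : Real.log (2 * x) ≤ 2 * x - 1 := Real.log_le_sub_one_of_pos (by linarith)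
    linarith
  set z : ℝ := x + Real.log x - 2 with hz
  have hz0 : 0 < z := by rw [hz]; linarith
  -- choice of the level
  set q : ℝ := Real.log (Y / (2 * Real.log 3)) / Real.log 2 with hq
  have hlogq : Real.log (Y / (2 * Real.log 3)) = Real.log Y - Real.log (2 * Real.log 3) :=
    Real.log_div hYpos.ne' (by positivity)
  have h4l3 : Real.log (2 * Real.log 3) + Real.log 2 ≤ 2 := by
    rw [← Real.log_mul (by positivity) (by norm_num)]
    have h5 : 2 * Real.log 3 * 2 ≤ Real.exp 2 := by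
      have h6 : Real.exp 2 = Real.exp 1 * Real.exp 1 := by rw [← Real.exp_add]; norm_num
      have h7 := Real.exp_one_gt_d9
      have h8 := log_three_lt
      rw [h6]
      nlinarith
    calc Real.log (2 * Real.log 3 * 2) ≤ Real.log (Real.exp 2) :=
          Real.log_le_log (by positivity) h5
      _ = 2 := Real.log_exp 2
  have hql : q * Real.log 2 = Real.log (Y / (2 * Real.log 3)) := by rw [hq]; field_simp
  have hlog23 : 0 ≤ Real.log (2 * Real.log 3) := by
    apply Real.log_nonneg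
    have : Real.log 2 < Real.log 3 := Real.log_lt_log (by norm_num) (by norm_num)
    linarith
  set a := ⌊q⌋₊ with ha
  have hq0 : 0 ≤ q := by
    by_contra hneg
    push Not at hneg
    have : q * Real.log 2 < 0 := mul_neg_of_neg_of_pos hneg l2
    rw [hql, hlogq] at this
    linarith
  have ha1 : (a : ℝ) ≤ q := Nat.floor_le hq0
  have ha2 : q < a + 1 := Nat.lt_floor_add_one q
  have hA : z ≤ a * Real.log 2 := by
    have h5 : q * Real.log 2 ≤ (a + 1) * Real.log 2 := mul_le_mul_of_nonneg_right ha2.le l2.le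
    rw [hql, hlogq] at h5
    rw [hz]
    linarith
  have ha5 : (a : ℝ) ≤ 5 * x := by
    have h5 : (a : ℝ) * Real.log 2 ≤ q * Real.log 2 := mul_le_mul_of_nonneg_right ha1 l2.le
    rw [hql, hlogq] at h5
    have h6 : (a : ℝ) * Real.log 2 ≤ 3 * x := by linarith
    by_contra hcon
    push Not at hcon
    nlinarith
  have ha0 : (0 : ℝ) < a := by
    by_contra hcon
    push Not at hcon
    have : (a : ℝ) * Real.log 2 ≤ 0 := mul_nonpos_of_nonpos_of_nonneg hcon l2.le
    linarith
  have ha3 : 3 ≤ a := by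
    have : (3 : ℝ) ≤ a := by
      by_contra hcon
      push Not at hcon
      nlinarith
    exact_mod_cast this
  have hlevel : 2 ^ (a + 1) * Real.log 3 ≤ Y := by
    have h5 : (2 : ℝ) ^ a ≤ Y / (2 * Real.log 3) := by
      have h6 : Real.log ((2 : ℝ) ^ a) ≤ Real.log (Y / (2 * Real.log 3)) := by
        rw [Real.log_pow, ← hql]
        exact mul_le_mul_of_nonneg_right ha1 l2.le
      exact (Real.log_le_log_iff (by positivity) (by positivity)).1 h6
    rw [le_div_iff₀ (by positivity)] at h5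
    calc 2 ^ (a + 1) * Real.log 3 = 2 ^ a * (2 * Real.log 3) := by rw [pow_succ]; ring
      _ ≤ Y := h5
  refine rep_bound ha3 hlevel ?_ hN
  -- the numerical inequality
  have h5 : Y / (a * Real.log 2) ≤ Y / z := div_le_div_of_nonneg_left hYpos.le hz0 hA
  have h6 : 12 / (a : ℝ) ≤ 8.4 / z := by
    rw [div_le_div_iff₀ ha0 hz0]
    nlinarith
  have h7 : Y / (a * Real.log 2) * (1 + 12 / a) ≤ Y / z * (1 + 8.4 / z) := by
    apply mul_le_mul h5 (by linarith) (by positivity) (by positivity)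
  have h8 : Y / z * (1 + 8.4 / z) ≤ n - 1.6 * n / z := by
    have hYz : Y = n * (z - 10) := by rw [hYeq, hz]; ring
    have h9 : n - 1.6 * n / z - Y / z * (1 + 8.4 / z) = 84 * n / z ^ 2 := by
      rw [hYz]; field_simp; ring
    have : 0 ≤ 84 * n / z ^ 2 := by positivity
    linarith
  have h10 : 6 * x ≤ 1.6 * n / z := by
    rw [le_div_iff₀ hz0]
    have h11 : x ^ 3 / (Nat.factorial 3 : ℕ) ≤ Real.exp x := Real.pow_div_factorial_le_exp x (by linarith) 3
    rw [← hexp] at h11
    rw [show ((Nat.factorial 3 : ℕ) : ℝ) = 6 by norm_num [Nat.factorial]] at h11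
    have h12 : z ≤ 2 * x := by rw [hz]; linarith
    have h13 : 6 * x * z ≤ 12 * x ^ 2 := by
      calc 6 * x * z ≤ 6 * x * (2 * x) := mul_le_mul_of_nonneg_left h12 (by linarith)
        _ = 12 * x ^ 2 := by ring
    have h14 : 12 * x ^ 2 ≤ 1.6 * (x ^ 3 / 6) := by
      have h15 : 0 ≤ x ^ 2 * (1.6 / 6 * x - 12) := mul_nonneg (sq_nonneg x) (by linarith)
      have h16 : x ^ 2 * (1.6 / 6 * x - 12) = 1.6 * (x ^ 3 / 6) - 12 * x ^ 2 := by ring
      linarith
    linarith
  linarith

/-! ### The upper bound, by counting -/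

theorem counting {X n K : ℕ} (hK : X < 2 ^ K) (H : ∀ N ≤ X, Rep n N) :
    X + 1 ≤ (K * K + n).choose n := by
  classical
  set S : Finset ℕ := insert 0 ((Finset.range K ×ˢ Finset.range K).image
    (fun p : ℕ × ℕ => 2 ^ p.1 * 3 ^ p.2)) with hS
  have hcard : S.card ≤ K * K + 1 := by
    refine (Finset.card_insert_le _ _).trans ?_
    refine Nat.add_le_add_right (Finset.card_image_le.trans ?_) 1
    simp
  have hex : ∀ N : Fin (X + 1), ∃ t : Sym {m : ℕ // m ∈ S} n,
      (Multiset.map Subtype.val t.1).sum = (N : ℕ) := by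
    intro N
    have hNX : (N : ℕ) ≤ X := Nat.lt_succ_iff.1 N.2
    obtain ⟨s, h1, h2, h3⟩ := H N hNX
    have hu : ∀ m ∈ s + Multiset.replicate (n - s.card) 0, m ∈ S := by
      intro m hm
      rcases Multiset.mem_add.1 hm with hm1 | hm1
      · obtain ⟨i, j, rfl⟩ := h2 m hm1
        have h4 : 2 ^ i * 3 ^ j ≤ (N : ℕ) := h3 ▸ Multiset.le_sum_of_mem hm1
        have h5 : 2 ^ i * 3 ^ j < 2 ^ K := lt_of_le_of_lt (h4.trans hNX) hK
        have h6 : 2 ^ i < 2 ^ K := lt_of_le_of_lt (Nat.le_mul_of_pos_right _ (by positivity)) h5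
        have h7 : 2 ^ j < 2 ^ K :=
          lt_of_le_of_lt ((Nat.pow_le_pow_left (by norm_num) j).trans
            (Nat.le_mul_of_pos_left _ (by positivity))) h5
        rw [hS]
        refine Finset.mem_insert_of_mem (Finset.mem_image.2 ⟨(i, j), ?_, rfl⟩)
        rw [Finset.mem_product, Finset.mem_range, Finset.mem_range]
        exact ⟨(Nat.pow_lt_pow_iff_right (by norm_num)).1 h6,
          (Nat.pow_lt_pow_iff_right (by norm_num)).1 h7⟩
      · rw [Multiset.eq_of_mem_replicate hm1, hS]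
        exact Finset.mem_insert_self _ _
    have hcu : (s + Multiset.replicate (n - s.card) 0).card = n := by
      rw [Multiset.card_add, Multiset.card_replicate]; omega
    have hsu : (s + Multiset.replicate (n - s.card) 0).sum = (N : ℕ) := by
      rw [Multiset.sum_add, h3]
      simp
    generalize s + Multiset.replicate (n - s.card) 0 = u at hu hcu hsu
    lift u to Multiset {m : ℕ // m ∈ S} using hu
    rw [Multiset.card_map] at hcu
    exact ⟨Sym.mk u hcu, hsu⟩
  choose f hf using hex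
  have hinj : Function.Injective f := by
    intro N N' hNN
    have h1 := hf N
    rw [hNN, hf N'] at h1
    exact Fin.ext h1.symm
  have h8 := Fintype.card_le_of_injective f hinj
  rw [Fintype.card_fin, Sym.card_sym_eq_choose, Fintype.card_coe] at h8
  exact h8.trans (Nat.choose_le_choose n (by omega))

theorem upper_aux {n : ℕ} (h1 : 2 * Real.log (Real.log n) + 5 ≤ Real.log n) (h2 : 5 ≤ Real.log n) :
    ∃ N : ℕ, 0 < N ∧
      (N : ℝ) ≤ Real.exp (n * Real.log n + 2 * n * Real.log (Real.log n) + 5 * n) ∧ ¬ Rep n N := by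
  have l2 : 0 < Real.log 2 := Real.log_pos (by norm_num)
  have l2' := Real.log_two_lt_d9
  have l2'' := Real.log_two_gt_d9
  set x := Real.log n with hx
  have hn0 : (0 : ℝ) < n := by
    rcases Nat.eq_zero_or_pos n with rfl | h
    · simp at hx; linarith
    · exact_mod_cast h
  have hn1 : (1 : ℝ) ≤ n := by
    have : 0 < n := by exact_mod_cast hn0
    exact_mod_cast this
  have hlx : 0 < Real.log x := Real.log_pos (by linarith)
  set M : ℝ := n * x + 2 * n * Real.log x + 5 * n with hM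
  have hMeq : M = n * (x + 2 * Real.log x + 5) := by rw [hM]; ring
  have hM5 : 5 * (n : ℝ) ≤ M := by
    rw [hMeq]
    have : (n : ℝ) * 5 ≤ n * (x + 2 * Real.log x + 5) :=
      mul_le_mul_of_nonneg_left (by linarith) hn0.le
    linarith
  have hMup : M ≤ n * (2 * x) := by rw [hMeq]; exact mul_le_mul_of_nonneg_left (by linarith) hn0.le
  have hM0 : 0 < M := by linarith
  have hlogM : Real.log M ≤ x + Real.log x + Real.log 2 := by
    have h3 := Real.log_le_log hM0 hMup
    rw [Real.log_mul hn0.ne' (by linarith), ← hx, Real.log_mul (by norm_num) (by linarith)] at h3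
    linarith
  by_contra hcon
  push Not at hcon
  set X := ⌊Real.exp M⌋₊ with hX
  have hXle : (X : ℝ) ≤ Real.exp M := Nat.floor_le (Real.exp_pos M).le
  have hXlt : Real.exp M < X + 1 := Nat.lt_floor_add_one _
  have hX1 : 1 ≤ X := by
    rw [hX]
    exact Nat.le_floor (by push_cast; exact Real.one_le_exp hM0.le)
  have hall : ∀ N ≤ X, Rep n N := by
    intro N hN
    rcases Nat.eq_zero_or_pos N with rfl | hpos
    · exact rep_zero n
    · refine hcon N hpos (le_trans ?_ hXle)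
      exact_mod_cast hN
  set K := Nat.log 2 X + 1 with hK
  have hXK : X < 2 ^ K := Nat.lt_pow_succ_log_self (by norm_num) X
  have hcount := counting hXK hall
  have hK1 : (K : ℝ) ≤ 2 * M := by
    have h3 : (2 : ℝ) ^ (Nat.log 2 X) ≤ Real.exp M := by
      refine le_trans ?_ hXle
      exact_mod_cast Nat.pow_log_le_self 2 (by omega)
    have h4 := Real.log_le_log (by positivity) h3
    rw [Real.log_pow, Real.log_exp] at h4
    have h5 : (K : ℝ) = Nat.log 2 X + 1 := by rw [hK]; push_cast; ring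
    rw [h5]
    by_contra hc
    push Not at hc
    nlinarith
  have hcountR : (X : ℝ) + 1 ≤ ((K * K + n : ℕ) : ℝ) ^ n / (Nat.factorial n : ℕ) := by
    refine le_trans ?_ (Nat.choose_le_pow_div n (K * K + n))
    exact_mod_cast hcount
  have hfac : (n : ℝ) ^ n / (Nat.factorial n : ℕ) ≤ Real.exp n :=
    Real.pow_div_factorial_le_exp n hn0.le n
  have hfacpos : (0 : ℝ) < (Nat.factorial n : ℕ) := by exact_mod_cast Nat.factorial_pos n
  have hKn : ((K * K + n : ℕ) : ℝ) ≤ 8 * M ^ 2 := by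
    push_cast
    have hK0 : (0 : ℝ) ≤ K := Nat.cast_nonneg K
    have h3 : (K : ℝ) * K ≤ (2 * M) * (2 * M) := mul_le_mul hK1 hK1 hK0 (by linarith)
    have h4 : (n : ℝ) ≤ M ^ 2 := by nlinarith
    nlinarith [sq_nonneg M]
  have hKn0 : (0 : ℝ) < ((K * K + n : ℕ) : ℝ) := by
    push_cast
    positivity
  -- take logarithms
  have hmain : Real.exp M * (n : ℝ) ^ n < (8 * M ^ 2) ^ n * Real.exp n := by
    have h3 : Real.exp M < ((K * K + n : ℕ) : ℝ) ^ n / (Nat.factorial n : ℕ) :=
      hXlt.trans_le hcountR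
    have h4 : ((K * K + n : ℕ) : ℝ) ^ n ≤ (8 * M ^ 2) ^ n := pow_le_pow_left₀ hKn0.le hKn n
    have hnn : (0 : ℝ) < (n : ℝ) ^ n := by positivity
    calc Real.exp M * (n : ℝ) ^ n
        < ((K * K + n : ℕ) : ℝ) ^ n / (Nat.factorial n : ℕ) * (n : ℝ) ^ n :=
          mul_lt_mul_of_pos_right h3 hnn
      _ = ((K * K + n : ℕ) : ℝ) ^ n * ((n : ℝ) ^ n / (Nat.factorial n : ℕ)) := by ring
      _ ≤ (8 * M ^ 2) ^ n * Real.exp n := mul_le_mul h4 hfac (by positivity) (by positivity)
  have hlog := Real.log_lt_log (by positivity) hmain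
  rw [Real.log_mul (Real.exp_pos M).ne' (by positivity), Real.log_exp, Real.log_pow,
    Real.log_mul (by positivity) (Real.exp_pos _).ne', Real.log_exp, Real.log_pow,
    Real.log_mul (by norm_num) (by positivity), Real.log_pow, ← hx] at hlog
  have h8 : Real.log 8 = 3 * Real.log 2 := by
    rw [show (8 : ℝ) = 2 ^ 3 by norm_num, Real.log_pow]; push_cast; ring
  rw [h8] at hlog
  push_cast at hlog
  have h9 : (n : ℝ) * (3 * Real.log 2 + 2 * Real.log M) ≤
      n * (3 * Real.log 2 + 2 * (x + Real.log x + Real.log 2)) :=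
    mul_le_mul_of_nonneg_left (by linarith) hn0.le
  have h10 : (n : ℝ) * (5 * Real.log 2) ≤ n * 3.5 :=
    mul_le_mul_of_nonneg_left (by linarith) hn0.le
  rw [hM] at hlog
  nlinarith

theorem tendsto_log_nat : Filter.Tendsto (fun n : ℕ => Real.log n) Filter.atTop Filter.atTop :=
  Real.tendsto_log_atTop.comp tendsto_natCast_atTop_atTop

theorem bounds : ∀ᶠ n : ℕ in Filter.atTop,
    n * Real.log n + n * Real.log (Real.log n) - 12 * n ≤ Real.log (h n) ∧
    Real.log (h n) ≤ n * Real.log n + 2 * n * Real.log (Real.log n) + 5 * n := by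
  have e1 : ∀ᶠ n : ℕ in Filter.atTop, 13 ≤ Real.log (Real.log n) :=
    (Real.tendsto_log_atTop.comp tendsto_log_nat).eventually_ge_atTop 13
  have e2 : ∀ᶠ n : ℕ in Filter.atTop, 2189 + (W 3 : ℝ) ≤ Real.log n :=
    tendsto_log_nat.eventually_ge_atTop _
  have e3 : ∀ᶠ n : ℕ in Filter.atTop, Real.log (Real.log n) ≤ 1 / 4 * Real.log n := by
    have := tendsto_log_nat.eventually
      (Real.isLittleO_log_id_atTop.bound (by norm_num : (0 : ℝ) < 1 / 4))
    filter_upwards [this, e1, e2] with n hn h1 h2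
    have hW : (0 : ℝ) ≤ W 3 := Nat.cast_nonneg _
    rw [Real.norm_of_nonneg (by linarith), id, Real.norm_of_nonneg (by linarith)] at hn
    exact hn
  filter_upwards [e1, e2, e3] with n h1 h2 h3
  have hW : (0 : ℝ) ≤ W 3 := Nat.cast_nonneg _
  obtain ⟨N, hN0, hN1, hN2⟩ := upper_aux (n := n) (by linarith) (by linarith)
  have hmem : h n ∈ {N : ℕ | 0 < N ∧ ¬ Rep n N} := Nat.sInf_mem ⟨N, hN0, hN2⟩
  have hle : h n ≤ N := Nat.sInf_le ⟨hN0, hN2⟩
  have hpos : (0 : ℝ) < h n := by exact_mod_cast hmem.1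
  constructor
  · by_contra hcon
    push Not at hcon
    have h4 : (h n : ℝ) ≤
        Real.exp (n * Real.log n + n * Real.log (Real.log n) - 12 * n) := by
      rw [← Real.exp_log hpos]
      exact Real.exp_le_exp.2 hcon.le
    exact hmem.2 (lower_aux h1 h2 h4)
  · have h4 : (h n : ℝ) ≤
        Real.exp (n * Real.log n + 2 * n * Real.log (Real.log n) + 5 * n) :=
      le_trans (by exact_mod_cast hle) hN1
    have := Real.log_le_log hpos h4
    rwa [Real.log_exp] at this

theorem limit : Filter.Tendsto (fun n : ℕ => Real.log (h n) / (n * Real.log n))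
    Filter.atTop (nhds 1) := by
  have hA : Filter.Tendsto (fun n : ℕ => Real.log (Real.log n) / Real.log n)
      Filter.atTop (nhds 0) :=
    (Real.isLittleO_log_id_atTop.tendsto_div_nhds_zero).comp tendsto_log_nat
  have hB : Filter.Tendsto (fun n : ℕ => (1 : ℝ) / Real.log n) Filter.atTop (nhds 0) := by
    simp only [one_div]
    exact tendsto_log_nat.inv_tendsto_atTop
  have hlow : Filter.Tendsto (fun n : ℕ => 1 + Real.log (Real.log n) / Real.log n -
      12 * ((1 : ℝ) / Real.log n)) Filter.atTop (nhds 1) := by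
    have := (hA.const_add 1).sub (hB.const_mul 12)
    simpa using this
  have hup : Filter.Tendsto (fun n : ℕ => 1 + 2 * (Real.log (Real.log n) / Real.log n) +
      5 * ((1 : ℝ) / Real.log n)) Filter.atTop (nhds 1) := by
    have := ((hA.const_mul 2).const_add 1).add (hB.const_mul 5)
    simpa using this
  have e2 : ∀ᶠ n : ℕ in Filter.atTop, 1 ≤ Real.log n := tendsto_log_nat.eventually_ge_atTop _
  refine tendsto_of_tendsto_of_tendsto_of_le_of_le' hlow hup ?_ ?_
  · filter_upwards [bounds, e2, Filter.eventually_gt_atTop 0] with n hn h2 h0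
    have hn0 : (0 : ℝ) < n := by exact_mod_cast h0
    have hl0 : (0 : ℝ) < Real.log n := by linarith
    rw [le_div_iff₀ (by positivity)]
    refine le_trans (le_of_eq ?_) hn.1
    field_simp
  · filter_upwards [bounds, e2, Filter.eventually_gt_atTop 0] with n hn h2 h0
    have hn0 : (0 : ℝ) < n := by exact_mod_cast h0
    have hl0 : (0 : ℝ) < Real.log n := by linarith
    rw [div_le_iff₀ (by positivity)]
    refine le_trans hn.2 (le_of_eq ?_)
    field_simp

/-- **Main theorem.** `log (h n) ~ n log n`, with the second-order term located between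
`n log log n` and `2 n log log n` up to `O(n)`. -/
theorem result :
    Filter.Tendsto (fun n : ℕ => Real.log (h n) / (n * Real.log n)) Filter.atTop (nhds 1) ∧
    ∀ᶠ n : ℕ in Filter.atTop,
      n * Real.log n + n * Real.log (Real.log n) - 12 * n ≤ Real.log (h n) ∧
      Real.log (h n) ≤ n * Real.log n + 2 * n * Real.log (Real.log n) + 5 * n :=
  ⟨limit, bounds⟩

end Pool.Agent.Results.MP_126cd2_nt.LogAsymptotics
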